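import Pool.Agent.Lib.MP_c27bb7_lc.Classify

/-!
Over a three-letter alphabet, equal E-pattern languages leave the language of a variable block
undetermined exactly when the block is an inner one and no letter occurs twice in the two terminal
blocks next to it.
-/

set_option autoImplicit false

namespace Pool.Agent.Results.MP_c27bb7_lc.ExactPlaces

open Pool.Agent.Lib.MP_c27bb7_lc

theorem result (S : Type) [Fintype S] (hS : Fintype.card S = 3) (m i : ℕ) (u : ℕ → List S)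
    (hu : ∀ j, 1 ≤ j → j ≤ m → u j ≠ []) (hi : i ≤ m) :
    (∃ α β : List (ℕ ⊕ S), α ≠ [] ∧ β ≠ [] ∧ ELang α = ELang β ∧
      (∃ A B : ℕ → List ℕ, SimilarVia α β m u A B) ∧
      ∀ (m' : ℕ) (u' : ℕ → List S) (A B : ℕ → List ℕ), SimilarVia α β m' u' A B →
        i ≤ m' ∧ ELang ((A i).map Sum.inl : List (ℕ ⊕ S)) ≠ ELang ((B i).map Sum.inl)) ↔
    1 ≤ i ∧ i < m ∧ (u i ++ u (i + 1)).Nodup := by
  classical
  constructor
  · rintro ⟨α, β, -, -, hL, ⟨A, B, hs⟩, h⟩
    by_contra hn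
    refine (h m u A B hs).2 (Set.ext fun w => ?_)
    obtain ⟨rfl, rfl, -, h4⟩ := hs
    rw [mem_ELang_vars, mem_ELang_vars]
    exact ⟨forced hS hi hu (fun j a b => (h4 j a b).1) hn hL,
      forced hS hi hu (fun j a b => (h4 j a b).2) hn hL.symm⟩
  · rintro ⟨h1, h2, h3⟩
    obtain ⟨E, E', a1, a2, a3, ⟨w, a4, a5⟩, a6⟩ :=
      exists_pair_nodup hS (hu i h1 hi) (hu (i + 1) (by omega) h2) h3
    have hne : ∀ F : List ℕ, F ≠ [] → ∀ j, lone i F j ≠ [] := fun F hF j => by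
      rw [lone]
      split_ifs <;> simp [hF]
    have hne' : ∀ F : List ℕ, F ≠ [] → assemble m u (lone i F) ≠ [] := fun F hF => by
      simp [assemble, hne F hF]
    refine ⟨_, _, hne' E a1, hne' E' a2, lone_eq h1 h2 a3 a6,
      ⟨_, _, rfl, rfl, hu, fun j _ _ => ⟨hne E a1 j, hne E' a2 j⟩⟩, ?_⟩
    rintro m' u' A B ⟨b1, b2, b3, b4⟩
    obtain ⟨rfl, c1⟩ := assemble_inj m m' hu b3 (fun j _ _ => hne E a1 j)
      (fun j x y => (b4 j x y).1) b1
    obtain ⟨-, c2⟩ := assemble_inj m m hu b3 (fun j _ _ => hne E' a2 j)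
      (fun j x y => (b4 j x y).2) b2
    refine ⟨hi, fun e => a5 ?_⟩
    rw [← gen_lone i, c1 i hi, ← mem_ELang_vars, e, mem_ELang_vars, ← c2 i hi, gen_lone]
    exact a4

end Pool.Agent.Results.MP_c27bb7_lc.ExactPlaces
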